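import Pool.Agent.MWGR.StmtsE

/-!
# Row DTT of block MWGR: block by block
-/

namespace Pool.Agent.MWGR.H72

open Pool.Agent.Helper14_MV Pool.Agent.Helper2_MV Pool.Agent.MVO Pool.Agent.MWL Pool.Agent.MWS
  Pool.Agent.MWH Pool.Agent.MWGR

theorem dtt_pre_count {k i x : ℕ} {B B' : ℕ → List ℕ} (hi : i ≤ k) (hx : NS k x)
    (h : ∀ j ≤ k, (B j).count x = (B' j).count x ∨ 2 ≤ (B' j).count x)
    (h2 : 2 ≤ (pre B i).count x) : 2 ≤ (pre B' i).count x := by
  cases i with
  | zero => simp [pre] at h2
  | succ i =>
    have hx' : NS i x := hx.le (by omega)
    have hne : x ≠ i + 2 := fun e => hx ⟨by omega, by omega⟩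
    have e1 : ∀ C : ℕ → List ℕ, (pre C (i + 1)).count x = deg i (fun j => (C j).count x) := by
      intro C
      show (asm i C ++ [i + 2]).count x = _
      rw [List.count_append, count_asm hx', List.count_singleton]
      have : ((i + 2 == x) = false) := by simpa using Ne.symm hne
      simp [this]
    rw [e1] at h2 ⊢
    by_cases hall : ∀ j ≤ i, (B j).count x = (B' j).count x
    · have : deg i (fun j => (B j).count x) = deg i (fun j => (B' j).count x) := by
        unfold deg
        refine Finset.sum_congr rfl (fun j hj => ?_)
        exact hall j (by have := Finset.mem_range.1 hj; omega)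
      omega
    · obtain ⟨j, hj, hne'⟩ : ∃ j ≤ i, ¬ (B j).count x = (B' j).count x := by
        by_contra hcon
        exact hall (fun j hj => by_contra (fun hne => hcon ⟨j, hj, hne⟩))
      have h3 : 2 ≤ (B' j).count x := by
        rcases h j (by omega) with h4 | h4
        · exact absurd h4 hne'
        · exact h4
      have h5 : (B' j).count x ≤ deg i (fun j => (B' j).count x) := by
        unfold deg
        exact Finset.single_le_sum (f := fun j => (B' j).count x) (fun _ _ => Nat.zero_le _)
          (Finset.mem_range.2 (by omega))
      omega

theorem dtt (hBBL : BblStmt) : DttStmt := by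
  intro n k θ B B' hBG hF hM hS
  obtain ⟨hok, hok', heq, hgm⟩ := hF
  -- the interpolating families
  let C : ℕ → ℕ → List ℕ := fun t j => if j < t then B' j else B j
  have key : ∀ t, t ≤ k + 1 → RR θ (asm k B) (asm k (C t)) := by
    intro t
    induction t with
    | zero =>
      intro _
      have : asm k (C 0) = asm k B := asm_congr (fun j _ => by simp [C])
      rw [this]
      exact RR.refl _
    | succ t ih =>
      intro ht1
      have ht : t ≤ k := by omega
      refine θ.trans (ih (by omega)) ?_
      have e1 : asm k (C t) = Wd (pre B' t) (suf B t (k - t)) (B t) := by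
        rw [asm_split ht (C t)]
        rw [pre_congr (B' := B') (fun j hj => by simp [C, hj]),
          suf_congr (B' := B) (fun j h1 _ => if_neg (by omega : ¬ j < t))]
        simp [Wd, C]
      have e2 : asm k (C (t + 1)) = Wd (pre B' t) (suf B t (k - t)) (B' t) := by
        rw [asm_split ht (C (t + 1))]
        rw [pre_congr (B' := B') (fun j hj => by simp [C, (by omega : j < t + 1)]),
          suf_congr (B' := B) (fun j h1 _ => if_neg (by omega : ¬ j < t + 1))]
        simp [Wd, C]
      show RR θ (asm k (C t)) (asm k (C (t + 1)))
      rw [e1, e2]
      set H : List ℕ := (B t).dedup.filter (fun x => decide (2 ≤ (B t).count x)) with hH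
      have hmemH : ∀ x, x ∈ H ↔ 2 ≤ (B t).count x := by
        intro x
        rw [hH, List.mem_filter, List.mem_dedup]
        constructor
        · rintro ⟨_, h⟩; simpa using h
        · intro h
          exact ⟨List.count_pos_iff.1 (by omega), by simpa using h⟩
      have hq : ∀ c, NS k c → ∀ j ≤ k, (B j).count c = (B' j).count c ∨
          (2 ≤ (B j).count c ∧ 2 ≤ (B' j).count c ∧ (B j).count c ≡ (B' j).count c [MOD n]) :=
        fun c hc j hj => heq c hc j hj
      -- light letters of `B t`
      have hlight : ∀ a, NS k a → (B t).count a = 1 → a ∉ pre B' t ∧ a ∈ suf B t (k - t) := by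
        intro a hns h1
        have hb : ∀ j < t, (B j).count a = 0 := by
          intro j hj
          by_contra hne
          have := hgm a hns j t hj ht hne (by show (B t).count a ≠ 0; omega)
          have h2 : 2 ≤ (B t).count a := this
          omega
        refine ⟨?_, ?_⟩
        · intro hmem
          rcases mem_pre.1 hmem with h | ⟨j, hj, h⟩
          · exact hns ⟨h.1, by omega⟩
          · have h3 : 1 ≤ (B' j).count a := List.count_pos_iff.2 h
            have h4 := hb j hj
            rcases hq a hns j (by omega) with h5 | ⟨h5, _, _⟩ <;> omega
        · by_contra hmem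
          have ha : a ∈ B t := List.count_pos_iff.1 (by omega)
          have h3 := hok.ml t ht a ha
          have h4 : deg k (fun j => (B j).count a) = (B t).count a := by
            unfold deg
            refine Finset.sum_eq_single t ?_ ?_
            · intro j hj hne
              have hj' := Finset.mem_range.1 hj
              rcases Nat.lt_or_gt_of_ne hne with h | h
              · exact hb j h
              · refine List.count_eq_zero.2 (fun hmem' => hmem ?_)
                exact mem_suf.2 (Or.inr ⟨j, h, by omega, hmem'⟩)
            · intro h
              exact absurd (Finset.mem_range.2 (by omega)) h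
          omega
      have hcount : ∀ a ∈ B t, a ∉ H → (B t).count a = 1 := by
        intro a ha hn
        have h1 : 1 ≤ (B t).count a := List.count_pos_iff.2 ha
        have h2 : ¬ 2 ≤ (B t).count a := fun h => hn ((hmemH a).2 h)
        omega
      have hnd : H.Nodup := (List.nodup_dedup _).filter _
      have hO : Ok1 H (pre B' t) (suf B t (k - t)) (B t) := by
        refine ⟨hnd, fun x hx => (hmemH x).1 hx, fun a ha hn => ?_⟩
        exact ⟨hcount a ha hn, hlight a (hok.ok t ht a ha) (hcount a ha hn)⟩
      have hnoH : ∀ a, NS k a → a ∉ H → (B t).count a = (B' t).count a := by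
        intro a hns hn
        rcases hq a hns t ht with h | ⟨h, _, _⟩
        · exact h
        · exact absurd ((hmemH a).2 h) hn
      have hO' : Ok1 H (pre B' t) (suf B t (k - t)) (B' t) := by
        refine ⟨hnd, fun x hx => ?_, fun a ha hn => ?_⟩
        · have hx2 := (hmemH x).1 hx
          have hxm : x ∈ B t := List.count_pos_iff.1 (by omega)
          rcases hq x (hok.ok t ht x hxm) t ht with h | ⟨_, h, _⟩ <;> omega
        · have hns := hok'.ok t ht a ha
          have h1 := hnoH a hns hn
          have h2 : 1 ≤ (B' t).count a := List.count_pos_iff.2 ha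
          have h3 : a ∈ B t := List.count_pos_iff.1 (by omega)
          have h4 := hcount a h3 hn
          exact ⟨by omega, hlight a hns h4⟩
      refine hBBL n θ θ hBG (fun _ _ h => h) H (pre B' t) (suf B t (k - t)) (B t) (B' t) hO hO' ?_ ?_ ?_ ?_
        ?_ ?_
      · intro a hn
        by_cases hns : NS k a
        · have h1 := hnoH a hns hn
          rw [← List.count_pos_iff, ← List.count_pos_iff, h1]
        · constructor
          · intro h; exact absurd (hok.ok t ht a h) hns
          · intro h; exact absurd (hok'.ok t ht a h) hns
      · intro x hx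
        have hx2 := (hmemH x).1 hx
        have hxm : x ∈ B t := List.count_pos_iff.1 (by omega)
        rcases hq x (hok.ok t ht x hxm) t ht with h | ⟨_, _, h⟩
        · rw [h]
        · exact h
      · intro x hx a ha hn hne
        exact (hM t ht x a (fun e => hn (e ▸ hx)) ((hmemH x).1 hx) (hcount a ha hn)).1 hne H
          (pre B' t) hn
      · intro x hx a ha hn hne
        have hx2 := (hmemH x).1 hx
        have hxm : x ∈ B t := List.count_pos_iff.1 (by omega)
        have hxns := hok.ok t ht x hxm
        have hqx := hq x hxns
        refine (hM t ht x a (fun e => hn (e ▸ hx)) hx2 (hcount a ha hn)).2.1 hne H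
          (pre B' t) hn ?_ ?_
        · intro hm
          rcases mem_pre.1 hm with h | ⟨j, hj, h⟩
          · exact mem_pre.2 (Or.inl h)
          · refine mem_pre.2 (Or.inr ⟨j, hj, ?_⟩)
            have h3 : 1 ≤ (B j).count x := List.count_pos_iff.2 h
            rcases hqx j (by omega) with h5 | ⟨_, h5, _⟩
            · exact List.count_pos_iff.1 (by omega)
            · exact List.count_pos_iff.1 (by omega)
        · intro h2
          refine dtt_pre_count ht hxns ?_ h2
          intro j hj
          rcases hqx j hj with h5 | ⟨_, h5, _⟩
          · exact Or.inl h5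
          · exact Or.inr h5
      · intro x hx a ha hn
        exact (hM t ht x a (fun e => hn (e ▸ hx)) ((hmemH x).1 hx) (hcount a ha hn)).2.2 H
          (pre B' t) hn
      · intro a ha b hb hna hnb hab h1 h0
        exact hS t ht a b hab (hcount a ha hna) (hcount b hb hnb) h1 h0 H (pre B' t) hna hnb
          (fun x hx => (hmemH x).1 hx)
  have hfin := key (k + 1) le_rfl
  have e : asm k (C (k + 1)) = asm k B' := asm_congr (fun j hj => by simp [C, (by omega : j < k + 1)])
  rw [e] at hfin
  exact hfin

end Pool.Agent.MWGR.H72
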